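import Pool.Agent.Lib.MP_9c2101_gt.Main

set_option autoImplicit false

universe u v

open Set Topology Pool.Agent.Lib.MP_9c2101_gt in
/-- The map Theta equals composition with the connecting map: for a pointed relative phantom map
`f`, the map `δ ∘ f` is phantom, all choices entering Theta can be made, and for all such choices a
map `u` has its Milnor class equal to the boundary class of `f` in `lim^1 H` exactly when `u` is
homotopic to `δ ∘ f`. -/
theorem Pool.Agent.Results.MP_9c2101_gt.ThetaDelta.result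
    {X : Type u} {B Y : Type v} [TopologicalSpace X] [T2Space X] [CWComplex (univ : Set X)]
    [TopologicalSpace B] [TopologicalSpace Y] (x0 : X) (hx : x0 ∈ sk X 0)
    (φ : C(B, Y)) (b0 : B) (y0 : Y) (hφ : φ b0 = y0) (T : Tower φ b0 y0)
    (f : C(X, Path y0 y0)) (hf : f x0 = Path.refl y0)
    (hph : RelPh x0 (loopMap φ hφ) (Path.refl b0) f) :
    Ph x0 (base φ hφ) ((delta φ hφ).comp f) ∧
    (∃ g, T.Lifts x0 f g) ∧
    (∀ u : C(X, Fib φ y0), Ph x0 (base φ hφ) u → Nonempty (T.Nulls x0 u)) ∧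
    ∀ g, T.Lifts x0 f g → ∀ u : C(X, Fib φ y0), u x0 = base φ hφ → ∀ N : T.Nulls x0 u,
      (T.Lim1Eq x0 (fun n => T.toH n (T.milnor N n)) (T.bd g) ↔
        u.HomotopicRel ((delta φ hφ).comp f) {x0}) :=
  ⟨ph_delta hφ hph,
    (nulls_of_ph hφ T hx (ph_delta hφ hph)).elim fun N => lifts_of_nulls hφ T expLaw_cw hf N,
    fun _ hu => nulls_of_ph hφ T hx hu,
    fun _ hg u hu N => ⟨delta_of_lim hφ T (pt u hu) N hx hf hg,
      lim_of_delta hφ T (pt u hu) N expLaw_cw hf hg⟩⟩
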